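import Pool.Agent.Box4.Final
set_option linter.all false
set_option autoImplicit false

/-!
# A polygon that folds into four different boxes

For all real `r, w, X` with `0 < r`, `4 r < w`, `4 w + 6 r < X`, `X ≠ 6 w` and `X ≠ 18 w` there is one
polygon that folds into the four pairwise different boxes
`6r × (18w - 6r) × (27X - 6r)`, `(6w + 6r) × (12w - 6r) × (27X - 4w - 2r)`,
`6r × (54w - 6r) × (9X - 6r)` and `6r × (162w - 6r) × (3X - 6r)`.
-/

namespace Pool.Agent.Results.MP_98e56f_co.FourBoxes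

open Pool.Agent.Box3

theorem result (r w X : ℝ) (hr : 0 < r) (hw : 4 * r < w) (hX : 4 * w + 6 * r < X)
    (h6 : X ≠ 6 * w) (h18 : X ≠ 18 * w) :
    ∃ P : Set Pl, IsPolygon P ∧
      FoldsInto P (6 * r) (18 * w - 6 * r) (27 * X - 6 * r) ∧
      FoldsInto P (6 * w + 6 * r) (12 * w - 6 * r) (27 * X - 4 * w - 2 * r) ∧
      FoldsInto P (6 * r) (54 * w - 6 * r) (9 * X - 6 * r) ∧
      FoldsInto P (6 * r) (162 * w - 6 * r) (3 * X - 6 * r) ∧
      ([{6 * r, 18 * w - 6 * r, 27 * X - 6 * r},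
        {6 * w + 6 * r, 12 * w - 6 * r, 27 * X - 4 * w - 2 * r},
        {6 * r, 54 * w - 6 * r, 9 * X - 6 * r},
        {6 * r, 162 * w - 6 * r, 3 * X - 6 * r}] : List (Multiset ℝ)).Pairwise (· ≠ ·) := by
  obtain ⟨P, h0, h1, h2, h3, h4⟩ := Pool.Agent.Box4.exists_net r w X hr hw hX
  have hmem : ∀ b c : ℝ, ({6 * r, b, c} : Multiset ℝ) ≠
      {6 * w + 6 * r, 12 * w - 6 * r, 27 * X - 4 * w - 2 * r} := by
    intro b c h
    have hm : 6 * r ∈ ({6 * w + 6 * r, 12 * w - 6 * r, 27 * X - 4 * w - 2 * r} : Multiset ℝ) := by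
      rw [← h]; simp
    simp only [Multiset.insert_eq_cons, Multiset.mem_cons, Multiset.mem_singleton] at hm
    rcases hm with h | h | h <;> linarith
  have hsum : ∀ a b c a' b' c' : ℝ, a + b + c ≠ a' + b' + c' →
      ({a, b, c} : Multiset ℝ) ≠ {a', b', c'} := by
    intro a b c a' b' c' h e
    have hs := congrArg Multiset.sum e
    simp only [Multiset.insert_eq_cons, Multiset.sum_cons, Multiset.sum_singleton] at hs
    exact h (by linarith)
  refine ⟨P, h0, h1, h2, h3, h4, ?_⟩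
  simp only [List.pairwise_cons, List.mem_cons, List.not_mem_nil, or_false, forall_eq_or_imp,
    forall_eq, false_imp_iff, implies_true, and_true, List.Pairwise.nil]
  refine ⟨⟨hmem _ _, hsum _ _ _ _ _ _ ?_, hsum _ _ _ _ _ _ ?_⟩,
    ⟨fun h => hmem _ _ h.symm, fun h => hmem _ _ h.symm⟩, hsum _ _ _ _ _ _ ?_⟩
  · intro h; linarith
  · intro h; exact h6 (by linarith)
  · intro h; exact h18 (by linarith)

end Pool.Agent.Results.MP_98e56f_co.FourBoxes
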